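import Pool.Agent.Helper58.DG3.Net
import Pool.Agent.Helper18.DG3.Cell

/-!
# Regions of the net
-/

set_option autoImplicit false

namespace Pool.Agent.Helper84.DG3

open Pool.Agent.Helper58.DG3
open Pool.Agent.Helper18.RAC
open Pool.Agent.Helper18.DG3 (Cell)

variable {V : Type*} {H : SimpleGraph V} {X Y : V → ℝ} {E F : ℝ} {κ : GX → V} {π : Par}

/-- `v` lies in the region `(i, j, u)` -/
def Reg (X Y : V → ℝ) (κ : GX → V) (π : Par) (v : V) (i j : ℤ) (u : Bool) : Prop :=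
  InC X Y κ i j v ∧ (InL π.D (i, j) → cond u (UL X Y κ i j v) (LR X Y κ i j v))

/-- the open cells are cells whose sides are covered -/
theorem cell (hn : Net H X Y E F κ π) {i j : ℤ} (hi : 0 ≤ i) (hj : 0 ≤ j)
    (hM : i + j + π.R + 5 ≤ π.M) :
    Cell H X Y (ZN κ π) (gX X κ i) (gX X κ (i + 1)) (gY Y κ j) (gY Y κ (j + 1)) where
  hx := hn.gx_lt i (i + 1) hi (by omega) (by omega)
  hy := hn.gy_lt j (j + 1) hj (by omega) (by omega)
  l := by
    obtain ⟨p, p', h1, h2, h3, h4, h5, h6, h7⟩ := hn.col i j hi hj (by omega)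
    exact ⟨p, p', h3, h1, h2, h4, h5, h6, h7⟩
  r := by
    obtain ⟨p, p', h1, h2, h3, h4, h5, h6, h7⟩ := hn.col (i + 1) j (by omega) hj (by omega)
    exact ⟨p, p', h3, h1, h2, h4, h5, h6, h7⟩
  b := by
    obtain ⟨p, p', h1, h2, h3, h4, h5, h6, h7⟩ := hn.row i j hi hj (by omega)
    exact ⟨p, p', h3, h1, h2, h4, h5, h6, h7⟩
  t := by
    obtain ⟨p, p', h1, h2, h3, h4, h5, h6, h7⟩ := hn.row i (j + 1) hi (by omega) (by omega)
    exact ⟨p, p', h3, h1, h2, h4, h5, h6, h7⟩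

theorem gx_le (hn : Net H X Y E F κ π) {i j : ℤ} (hi : 0 ≤ i) (hij : i ≤ j)
    (hM : j + 3 ≤ π.M) : gX X κ i ≤ gX X κ j := by
  rcases hij.eq_or_lt with rfl | h
  · exact le_rfl
  · exact (hn.gx_lt i j hi h hM).le

theorem gy_le (hn : Net H X Y E F κ π) {i j : ℤ} (hi : 0 ≤ i) (hij : i ≤ j)
    (hM : j + 3 ≤ π.M) : gY Y κ i ≤ gY Y κ j := by
  rcases hij.eq_or_lt with rfl | h
  · exact le_rfl
  · exact (hn.gy_lt i j hi h hM).le

/-- the cell of a vertex is unique -/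
theorem InC.uniq (hn : Net H X Y E F κ π) {i j i' j' : ℤ} {v : V} (hi : 0 ≤ i) (hj : 0 ≤ j)
    (hi' : 0 ≤ i') (hj' : 0 ≤ j') (mi : i + 3 ≤ π.M) (mj : j + 3 ≤ π.M) (mi' : i' + 3 ≤ π.M)
    (mj' : j' + 3 ≤ π.M) (h : InC X Y κ i j v) (h' : InC X Y κ i' j' v) : i = i' ∧ j = j' := by
  obtain ⟨a1, a2, a3, a4⟩ := h
  obtain ⟨b1, b2, b3, b4⟩ := h'
  constructor
  · rcases lt_trichotomy i i' with h | h | h
    · have := gx_le hn (i := i + 1) (j := i') (by omega) (by omega) (by omega)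
      linarith
    · exact h
    · have := gx_le hn (i := i' + 1) (j := i) (by omega) (by omega) (by omega)
      linarith
  · rcases lt_trichotomy j j' with h | h | h
    · have := gy_le hn (i := j + 1) (j := j') (by omega) (by omega) (by omega)
      linarith
    · exact h
    · have := gy_le hn (i := j' + 1) (j := j) (by omega) (by omega) (by omega)
      linarith

theorem ok_F {x y : ℕ} (hx : 1 ≤ x) (hy : 1 ≤ y) (hM : x + y + 3 ≤ π.M)
    (h : InL π.D (x, y)) : GN.ok π (.F x y) := ⟨hx, hy, hM, Or.inl h⟩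

theorem ok_F1 {x y : ℕ} (hM : x + y + 5 ≤ π.M)
    (h : InL π.D (x, y)) : GN.ok π (.F (x + 1) (y + 1)) := by
  refine ⟨by omega, by omega, by omega, Or.inr (Or.inl ?_)⟩
  simpa using h

/-- a vertex in a cell of the lattice is on one side of the diagonal -/
theorem side (hn : Net H X Y E F κ π) {x y : ℕ} (hx : 1 ≤ x) (hy : 1 ≤ y)
    (hM : x + y + 5 ≤ π.M) (hL : InL π.D (x, y)) {v : V} (hv : InC X Y κ x y v) :
    UL X Y κ x y v ∨ LR X Y κ x y v := by
  obtain ⟨a1, a2, a3, a4⟩ := hv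
  unfold UL LR
  rcases lt_trichotomy
    ((X v - gX X κ x) * (gY Y κ (y + 1) - gY Y κ y))
    ((Y v - gY Y κ y) * (gX X κ (x + 1) - gX X κ x)) with h | h | h
  · exact Or.inl h
  · exfalso
    have hadj := hn.dg x y hx hy hM hL
    obtain ⟨p1, p2⟩ := hn.pos x y (ok_F hx hy (by omega) hL)
    obtain ⟨q1, q2⟩ := hn.pos (x + 1) (y + 1) (ok_F1 hM hL)
    push_cast at q1 q2
    have hgx := hn.gx_lt x (x + 1) (by omega) (by omega) (by omega)
    have hgy := hn.gy_lt y (y + 1) (by omega) (by omega) (by omega)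
    have hgx' : (0 : ℝ) < gX X κ (x + 1) - gX X κ x := by linarith
    have hgy' : (0 : ℝ) < gY Y κ (y + 1) - gY Y κ y := by linarith
    have e1 : (Y v - gY Y κ y) / (gY Y κ (y + 1) - gY Y κ y) =
        (X v - gX X κ x) / (gX X κ (x + 1) - gX X κ x) := by
      rw [div_eq_div_iff hgy'.ne' hgx'.ne']
      linarith
    refine hn.hd.vtx _ _ v hadj ?_ ?_ ((X v - gX X κ x) / (gX X κ (x + 1) - gX X κ x))
      (div_nonneg (by linarith) hgx'.le) ((div_le_one hgx').2 (by linarith)) ?_ ?_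
    · intro h1
      rw [h1, p1] at a1
      exact lt_irrefl _ a1
    · intro h1
      rw [h1, q1] at a2
      exact lt_irrefl _ a2
    · rw [p1, q1]
      field_simp
      ring
    · rw [p2, q2, ← e1]
      field_simp
      ring
  · exact Or.inr h

/-- a vertex in a cell lies in a region -/
theorem exists_reg (hn : Net H X Y E F κ π) {i j : ℤ} (hi : 1 ≤ i) (hj : 1 ≤ j)
    (hM : i + j + 5 ≤ π.M) {v : V} (hv : InC X Y κ i j v) : ∃ u, Reg X Y κ π v i j u := by
  by_cases hL : InL π.D (i, j)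
  · obtain ⟨x, rfl⟩ : ∃ x : ℕ, i = x := ⟨i.toNat, by omega⟩
    obtain ⟨y, rfl⟩ : ∃ y : ℕ, j = y := ⟨j.toNat, by omega⟩
    rcases side hn (by omega) (by omega) (by omega) hL hv with h | h
    · exact ⟨true, hv, fun _ => h⟩
    · exact ⟨false, hv, fun _ => h⟩
  · exact ⟨true, hv, fun h => absurd h hL⟩

/-- a neighbour outside the net of a net vertex lies in one of the four cells around it -/
theorem around (hn : Net H X Y E F κ π) {x y : ℕ} (hx : 2 ≤ x) (hy : 2 ≤ y)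
    (hM : x + y + π.R + 5 ≤ π.M) (hS : InS π.D (x, y)) {v : V}
    (hadj : H.Adj (κ (.v (.F x y))) v) (hv : v ∉ ZN κ π) :
    ∃ i j u, Reg X Y κ π v i j u ∧ (i = (x : ℤ) ∨ i = x - 1) ∧ (j = (y : ℤ) ∨ j = y - 1) := by
  have hok : GN.ok π (.F x y) := ⟨by omega, by omega, by omega, hS⟩
  obtain ⟨p1, p2⟩ := hn.pos x y hok
  have c00 := cell hn (i := x - 1) (j := y - 1) (by omega) (by omega) (by omega)
  have c10 := cell hn (i := x) (j := y - 1) (by omega) (by omega) (by omega)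
  have c01 := cell hn (i := x - 1) (j := y) (by omega) (by omega) (by omega)
  have c11 := cell hn (i := x) (j := y) (by omega) (by omega) (by omega)
  simp only [sub_add_cancel] at c00 c10 c01
  obtain ⟨hX, hY⟩ := Pool.Agent.Helper18.DG3.star hn.hd c00 c10 c01 c11 p1 p2 hadj hv
  have main : ∀ i j : ℤ, (i = (x : ℤ) ∨ i = x - 1) → (j = (y : ℤ) ∨ j = y - 1) →
      InC X Y κ i j v → ∃ i j u, Reg X Y κ π v i j u ∧ (i = (x : ℤ) ∨ i = x - 1) ∧
        (j = (y : ℤ) ∨ j = y - 1) := by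
    intro i j h1 h2 h3
    obtain ⟨u, hu⟩ := exists_reg hn (i := i) (j := j) (by omega) (by omega) (by omega) h3
    exact ⟨i, j, u, hu, h1, h2⟩
  rcases hX with ⟨h1, h2⟩ | ⟨h1, h2⟩ <;> rcases hY with ⟨h3, h4⟩ | ⟨h3, h4⟩
  · exact main _ _ (Or.inr rfl) (Or.inr rfl) ⟨h1, by rwa [sub_add_cancel], h3,
      by rwa [sub_add_cancel]⟩
  · exact main _ _ (Or.inr rfl) (Or.inl rfl) ⟨h1, by rwa [sub_add_cancel], h3, h4⟩
  · exact main _ _ (Or.inl rfl) (Or.inr rfl) ⟨h1, h2, h3, by rwa [sub_add_cancel]⟩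
  · exact main _ _ (Or.inl rfl) (Or.inl rfl) ⟨h1, h2, h3, h4⟩

/-- the vertices of the threads are not vertices of the net -/
theorem T_notMem (hg : HasGrid H κ π) {k x y t : ℕ} (hok : GN.ok π (.T k x y t)) :
    κ (.v (.T k x y t)) ∉ ZN κ π := by
  rintro ⟨z, hz, hnt, he⟩
  have := hg.inj _ _ hok hz he
  rw [← this] at hnt
  exact hnt

end Pool.Agent.Helper84.DG3
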