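import Pool.Agent.Helper96.DG3.Walk
import Pool.Agent.Helper49.DG3.TCell

/-!
# The regions of the vertices of a thread

Abstract form: `Reg v i j u` says that the vertex `v` lies in the region `(i, j, u)`.
-/

set_option autoImplicit false

namespace Pool.Agent.Helper84.DG3

open Pool.Agent.Helper96.DG3
open Pool.Agent.Helper49.DG3 (colT rowT)

/-- a chain of regions along a path -/
theorem exists_chain {V : Type*} {Adj : V → V → Prop} {Reg : V → ℤ → ℤ → Bool → Prop}
    {R c : ℤ} {T : ℕ → V} {n : ℕ} {x y : ℤ} {u₀ : Bool} (h0 : Reg (T 0) x y u₀)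
    (hT : ∀ t < n, Adj (T t) (T (t + 1)))
    (hl : ∀ t < n, ∀ i j u, Reg (T t) i j u → |i - x| ≤ t * R → |j - y| ≤ t * R →
      Adj (T t) (T (t + 1)) → ∃ i' j' u', Reg (T (t + 1)) i' j' u' ∧ Link R c i j u i' j' u' ∧
        |i' - i| ≤ R ∧ |j' - j| ≤ R) :
    ∃ (i j : ℕ → ℤ) (u : ℕ → Bool), i 0 = x ∧ j 0 = y ∧ u 0 = u₀ ∧
      (∀ t ≤ n, Reg (T t) (i t) (j t) (u t) ∧ |i t - x| ≤ t * R ∧ |j t - y| ≤ t * R) ∧
      ∀ t < n, Link R c (i t) (j t) (u t) (i (t + 1)) (j (t + 1)) (u (t + 1)) := by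
  induction n with
  | zero =>
    refine ⟨fun _ => x, fun _ => y, fun _ => u₀, rfl, rfl, rfl, fun t ht => ?_, fun t ht => ?_⟩
    · obtain rfl : t = 0 := by omega
      simpa using h0
    · omega
  | succ n ih =>
    obtain ⟨i, j, u, hi, hj, hu, h1, h2⟩ := ih (fun t ht => hT t (by omega))
      (fun t ht => hl t (by omega))
    obtain ⟨r1, r2, r3⟩ := h1 n le_rfl
    obtain ⟨i', j', u', k1, k2, k3, k4⟩ := hl n (by omega) _ _ _ r1 r2 r3 (hT n (by omega))
    refine ⟨fun t => if t ≤ n then i t else i', fun t => if t ≤ n then j t else j',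
      fun t => if t ≤ n then u t else u', by simp [hi], by simp [hj], by simp [hu],
      fun t ht => ?_, fun t ht => ?_⟩
    · by_cases htn : t ≤ n
      · simp only [htn, if_true]
        exact h1 t htn
      · obtain rfl : t = n + 1 := by omega
        simp only [htn, if_false]
        refine ⟨k1, ?_, ?_⟩
        · push_cast
          calc |i' - x| ≤ |i' - i n| + |i n - x| := abs_sub_le _ _ _
            _ ≤ R + n * R := add_le_add k3 r2
            _ = ((n : ℤ) + 1) * R := by ring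
        · push_cast
          calc |j' - y| ≤ |j' - j n| + |j n - y| := abs_sub_le _ _ _
            _ ≤ R + n * R := add_le_add k4 r3
            _ = ((n : ℤ) + 1) * R := by ring
    · by_cases htn : t < n
      · have e1 : t ≤ n := by omega
        have e2 : t + 1 ≤ n := by omega
        simp only [e1, e2, if_true]
        exact h2 t htn
      · obtain rfl : t = n := by omega
        have e1 : ¬ t + 1 ≤ t := by omega
        simp only [le_refl, e1, if_true, if_false]
        exact k2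

/-- **The regions of a thread.** -/
theorem pos_core {V : Type*} {Adj : V → V → Prop} {Reg : V → ℤ → ℤ → Bool → Prop}
    {R c A B t₀ s₀ : ℤ} (hp : Par R c A B t₀ s₀) {x y : ℤ} (hx : InL R c x y) {l : ℕ} {T : ℕ → V}
    (hreg : ∀ i j u i' j' u', Reg (T (2 * l + 1)) i j u → Reg (T (2 * l + 1)) i' j' u' →
      i = i' ∧ j = j')
    (hT : ∀ t < 2 * l + 1, Adj (T t) (T (t + 1)))
    (hl : ∀ t < 2 * l + 1, ∀ i j u, Reg (T t) i j u → |i - x| ≤ t * R + 1 →
      |j - y| ≤ t * R + 1 → Adj (T t) (T (t + 1)) →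
      ∃ i' j' u', Reg (T (t + 1)) i' j' u' ∧ Link R c i j u i' j' u' ∧
        |i' - i| ≤ R ∧ |j' - j| ≤ R)
    (h0 : ∃ i j u, Reg (T 0) i j u ∧ (i = x ∨ i = x + 1) ∧ (j = y ∨ j = y + 1))
    (h1 : ∃ i j u, Reg (T (2 * l + 1)) i j u ∧
      (i = x + l * (R - 2 * t₀) ∨ i = x + l * (R - 2 * t₀) - 1) ∧
      (j = y - R - l * (R - 2 * s₀) ∨ j = y - R - l * (R - 2 * s₀) - 1)) :
    Reg (T 0) x y false ∧
    Reg (T (2 * l + 1)) (x + l * (R - 2 * t₀)) (y - R - l * (R - 2 * s₀)) true ∧
    ∀ t, 1 ≤ t → t ≤ 2 * l → ∃ u, Reg (T t) (colT R t₀ x t) (rowT R s₀ y t) u := by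
  obtain ⟨i0, j0, u0, a1, a2, a3⟩ := h0
  obtain ⟨i1, j1, u1, b1, b2, b3⟩ := h1
  have hi0 : |i0 - x| ≤ 1 := by
    rcases a2 with h | h <;> rw [h] <;> simp
  have hj0 : |j0 - y| ≤ 1 := by
    rcases a3 with h | h <;> rw [h] <;> simp
  obtain ⟨i, j, u, c1, c2, c3, c4, c5⟩ := exists_chain (R := R) (c := c) a1 hT
    (fun t ht i j u k1 k2 k3 k4 => hl t ht i j u k1
      ((abs_sub_le i i0 x).trans (add_le_add k2 hi0))
      ((abs_sub_le j j0 y).trans (add_le_add k3 hj0)) k4)
  obtain ⟨d1, d2, d3⟩ := c4 (2 * l + 1) le_rfl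
  obtain ⟨e1, e2⟩ := hreg _ _ _ _ _ _ d1 b1
  have hx' : InL R c x (y - R) := by
    obtain ⟨w, hw⟩ := hx
    exact ⟨w + c, by linear_combination hw⟩
  obtain ⟨f1, f2, f3⟩ := walk_unique hp hx' l i j u c5 (by rw [c1]; exact a2)
    (by rw [c2]; rcases a3 with h | h
        · left; rw [h]; ring
        · right; rw [h]; ring)
    (by rw [e1]; exact b2) (by rw [e2]; exact b3)
  refine ⟨?_, ?_, ?_⟩
  · have := (c4 0 (by omega)).1
    rw [f1.1, f1.2.1, f1.2.2, show y - R + R = y by ring] at this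
    exact this
  · have := d1
    rw [f2.1, f2.2.1, f2.2.2] at this
    exact this
  · intro t h1 h2
    have h3 := (c4 t (by omega)).1
    refine ⟨u t, ?_⟩
    rcases Nat.even_or_odd t with ⟨a, ha⟩ | ⟨a, ha⟩
    · obtain ⟨b, rfl⟩ : ∃ b, a = b + 1 := ⟨a - 1, by omega⟩
      obtain ⟨g1, g2⟩ := (f3 b (by omega)).2
      have e1 : colT R t₀ x t = i t := by
        unfold colT
        rw [show t = 2 * b + 2 by omega, g1, show (2 * b + 2) / 2 = b + 1 by omega]
        push_cast
        ring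
      have e2 : rowT R s₀ y t = j t := by
        unfold rowT
        rw [show t = 2 * b + 2 by omega, g2, show (2 * b + 2 - 1) / 2 = b by omega]
        ring
      rw [e1, e2]
      exact h3
    · obtain ⟨g1, g2⟩ := (f3 a (by omega)).1
      have e1 : colT R t₀ x t = i t := by
        unfold colT
        rw [ha, g1, show (2 * a + 1) / 2 = a by omega]
      have e2 : rowT R s₀ y t = j t := by
        unfold rowT
        rw [ha, g2, show (2 * a + 1 - 1) / 2 = a by omega]
        ring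
      rw [e1, e2]
      exact h3

end Pool.Agent.Helper84.DG3
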