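import Pool.Agent.Helper84.DG3.Reg
import Pool.Agent.Helper84.DG3.Pos
import Pool.Agent.Helper72.DG3.NetLink
import Pool.Agent.Helper96.DG3.ParInst

/-!
# The cells of the vertices of the threads
-/

set_option autoImplicit false

namespace Pool.Agent.Helper58.DG3

open Pool.Agent.Helper18.RAC
open Pool.Agent.Helper84.DG3
open Pool.Agent.Helper72.DG3 (HP DP Row Crs At)
open Pool.Agent.Helper49.DG3 (colT rowT)

variable {V : Type*} {H : SimpleGraph V} {X Y : V → ℝ} {E F : ℝ} {κ : GX → V} {π : Par}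

/-- the lattice as a relation -/
abbrev LL (π : Par) (a b : ℤ) : Prop := InL π.D (a, b)

theorem Net.hpV (hn : Net H X Y E F κ π) {i j : ℤ} (hi : 0 ≤ i) (hj : 0 ≤ j)
    (hM : i + j + π.R + 4 ≤ π.M) :
    HP H Y X (ZN κ π) (gX X κ i) (gY Y κ j) (gY Y κ (j + 1)) := by
  obtain ⟨p, p', h1, h2, h3, h4, h5, h6, h7⟩ := hn.col i j hi hj hM
  exact ⟨p, p', h3, h1, h2, h4, h5, h6, h7⟩

theorem Net.hpH (hn : Net H X Y E F κ π) {i j : ℤ} (hi : 0 ≤ i) (hj : 0 ≤ j)
    (hM : i + j + π.R + 4 ≤ π.M) :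
    HP H X Y (ZN κ π) (gY Y κ j) (gX X κ i) (gX X κ (i + 1)) := by
  obtain ⟨p, p', h1, h2, h3, h4, h5, h6, h7⟩ := hn.row i j hi hj hM
  exact ⟨p, p', h3, h1, h2, h4, h5, h6, h7⟩

/-- **The exit lemma.** -/
theorem Net.exit (hn : Net H X Y E F κ π) {i j : ℤ} (hi : 0 ≤ i) (hj : 0 ≤ j)
    (hM : i + j + π.R + 5 ≤ π.M) {p p' : V} (hp : InC X Y κ i j p) (hadj : H.Adj p p') :
    InC X Y κ i j p' ∨
      (p' ∈ ZN κ π ∧ (X p' = gX X κ i ∨ X p' = gX X κ (i + 1)) ∧
        (Y p' = gY Y κ j ∨ Y p' = gY Y κ (j + 1))) ∨ X p' = X p ∨ Y p' = Y p := by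
  obtain ⟨a1, a2, a3, a4⟩ := hp
  exact (cell hn hi hj hM).through hn.hd hadj (s := 0) le_rfl zero_lt_one (by linarith)
    (by linarith) (by linarith) (by linarith)

/-- region with bounds -/
def RG (X Y : V → ℝ) (κ : GX → V) (π : Par) (v : V) (i j : ℤ) (u : Bool) : Prop :=
  (1 ≤ i ∧ 1 ≤ j ∧ i + j + π.R + 5 ≤ π.M) ∧ At X Y (gX X κ) (gY Y κ) (LL π) i j u v

/-- the facts on the numbers of a start -/
theorem Par.St.facts {k x y : ℕ} (h : π.St k x y) :
    Pool.Agent.Helper96.DG3.Par (π.R : ℤ) (Nat.fib (2 * π.D) : ℤ)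
      (Pool.Agent.Helper68.RAC1.lo (π.D - k)) (Pool.Agent.Helper68.RAC1.lo k) (π.fx k : ℤ)
      (π.fy k : ℤ) := Pool.Agent.Helper96.DG3.par h.1.1 h.1.2

theorem Par.St.bds {k x y : ℕ} (h : π.St k x y) :
    0 < (π.fx k : ℤ) ∧ 2 * (π.fx k : ℤ) < π.R ∧ 0 < (π.fy k : ℤ) ∧ 2 * (π.fy k : ℤ) < π.R := by
  have h1 := h.1.1
  have h2 := h.1.2
  have hf := h.facts
  refine ⟨hf.t0, ?_, hf.s0, ?_⟩
  · have := Pool.Agent.Helper68.RAC1.two_vv_fst_lt (j := k) (D := π.D) (by omega)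
    exact this
  · have := Pool.Agent.Helper68.RAC1.lt_two_vv_snd (j := k) (D := π.D) (by omega) (by omega)
    have e : (Pool.Agent.Helper68.RAC1.vv π.D k).2 = -(π.fy k : ℤ) := rfl
    rw [e] at this
    have e2 : Pool.Agent.Helper68.RAC1.RR π.D = (π.R : ℤ) := rfl
    rw [e2] at this
    linarith

/-- the end of a thread -/
theorem Par.St.pl {k x y : ℕ} (h : π.St k x y) (m : ℕ) : InL π.D (π.pp k x y m) := by
  obtain ⟨u, hu⟩ := h.facts.tl
  obtain ⟨w, hw⟩ := h.2.1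
  refine ⟨w + m + Nat.fib (2 * π.D) + Nat.fib (2 * π.D) * m - 2 * m * u, ?_⟩
  have e : (π.R : ℤ) = (Nat.fib (2 * π.D + 2) : ℤ) := rfl
  unfold Par.pp
  rw [e] at hu ⊢
  linear_combination hw - 2 * (m : ℤ) * hu

theorem Net.thread_core (hn : Net H X Y E F κ π) (hg : HasGrid H κ π) {k x y : ℕ}
    (h : π.St k x y) :
    RG X Y κ π (κ (.v (.T k x y 0))) x y false ∧
    RG X Y κ π (κ (.v (.T k x y (2 * π.l + 1)))) (π.pp k x y π.l).1 (π.pp k x y π.l).2 true ∧
    ∀ t, 1 ≤ t → t ≤ 2 * π.l →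
      ∃ u, RG X Y κ π (κ (.v (.T k x y t))) (colT π.R (π.fx k) x t) (rowT π.R (π.fy k) y t) u := by
  have hf := h.facts
  obtain ⟨b1, b2, b3, b4⟩ := h.bds
  have hR : (0 : ℤ) < π.R := by exact_mod_cast π.R_pos
  obtain ⟨-, hL, hx, hy, hxy, -⟩ := id h
  have hG : (π.G : ℤ) = 4 * (π.l * π.R) + 8 * π.R := by
    unfold Par.G
    push_cast
    ring
  have hx' : (π.G : ℤ) ≤ x := by exact_mod_cast hx
  have hy' : (π.G : ℤ) ≤ y := by exact_mod_cast hy
  have hxy' : (x : ℤ) + y + π.G ≤ π.M := by exact_mod_cast hxy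
  rw [hG] at hx' hy' hxy'
  have hlR : (0 : ℤ) ≤ π.l * π.R := by positivity
  obtain ⟨q, hq⟩ : ∃ q : ℤ, q = (π.l : ℤ) * π.R := ⟨_, rfl⟩
  rw [← hq] at hx' hy' hxy' hlR
  -- the end point
  have e1 : (π.pp k x y π.l).1 = x + π.l * ((π.R : ℤ) - 2 * π.fx k) := rfl
  have e2 : (π.pp k x y π.l).2 = y - π.R - π.l * ((π.R : ℤ) - 2 * π.fy k) := rfl
  have l1 : 0 ≤ (π.l : ℤ) * ((π.R : ℤ) - 2 * π.fx k) := mul_nonneg (by positivity) (by linarith)
  have l2 : 0 ≤ (π.l : ℤ) * ((π.R : ℤ) - 2 * π.fy k) := mul_nonneg (by positivity) (by linarith)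
  have l3 : (π.l : ℤ) * ((π.R : ℤ) - 2 * π.fx k) ≤ q := by
    rw [hq]
    exact mul_le_mul_of_nonneg_left (by linarith) (by positivity)
  have l4 : (π.l : ℤ) * ((π.R : ℤ) - 2 * π.fy k) ≤ q := by
    rw [hq]
    exact mul_le_mul_of_nonneg_left (by linarith) (by positivity)
  have hT : ∀ t ≤ 2 * π.l + 1, κ (.v (.T k x y t)) ∉ ZN κ π := fun t ht =>
    T_notMem hg (show GN.ok π (.T k x y t) from ⟨h, ht⟩)
  -- conversion of regions
  have conv : ∀ (v : V) (i j : ℤ), 1 ≤ i → 1 ≤ j → i + j + π.R + 5 ≤ π.M →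
      InC X Y κ i j v → ∃ u, RG X Y κ π v i j u := by
    intro v i j a1 a2 a3 a5
    obtain ⟨u, hu⟩ := Pool.Agent.Helper72.DG3.exists_At (L := LL π)
      (show Pool.Agent.Helper72.DG3.InC X Y (gX X κ) (gY Y κ) i j v from a5)
    exact ⟨u, ⟨a1, a2, a3⟩, hu⟩
  have key := pos_core (Adj := H.Adj) (Reg := RG X Y κ π) (T := fun t => κ (.v (.T k x y t)))
    (l := π.l) hf (x := x) (y := y) hL
    (by
      rintro i j u i' j' u' ⟨⟨a1, a2, a3⟩, a5⟩ ⟨⟨c1, c2, c3⟩, c5⟩
      exact InC.uniq hn (by linarith) (by linarith) (by linarith) (by linarith) (by linarith)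
        (by linarith) (by linarith) (by linarith) a5.1 c5.1)
    (fun t ht => hg.adj (.tt k x y t) ⟨h, by omega⟩)
    (by
      rintro t ht i j u ⟨-, a5⟩ a6 a7 a8
      have m1 : (t : ℤ) * π.R ≤ 2 * q := by
        rw [hq]
        have : (t : ℤ) * π.R ≤ (2 * π.l) * π.R :=
          mul_le_mul_of_nonneg_right (by omega) hR.le
        linarith
      obtain ⟨a9, a10⟩ := abs_le.1 a6
      obtain ⟨a11, a12⟩ := abs_le.1 a7
      obtain ⟨i', j', u', k1, k2, k3, k4, k5, k6⟩ :=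
        (hn.crs (i := i) (j := j) (by linarith) (by linarith) (by linarith)).link hn.hd
          (exists_right π i j) (exists_left π i j) (exists_up π i j) (exists_down π i j) a8
          (hT t (by omega)) (hT (t + 1) (by omega)) a5
      refine ⟨i', j', u', ⟨⟨by linarith, by linarith, by linarith⟩, k1⟩, k6,
        abs_le.2 ⟨by linarith, by linarith⟩, abs_le.2 ⟨by linarith, by linarith⟩⟩)
    (by
      obtain ⟨i, j, u, r1, r2, r3⟩ := around hn (x := x + 1) (y := y + 1) (by omega) (by omega)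
        (by omega) (Or.inr (Or.inl (by push_cast; simpa using hL)))
        (hg.adj (.ts k x y) h) (hT 0 (by omega))
      push_cast at r2 r3
      obtain ⟨u', hu'⟩ := conv _ i j (by omega) (by omega) (by omega) r1.1
      exact ⟨i, j, u', hu', by omega, by omega⟩)
    (by
      have hl := h.pl π.l
      obtain ⟨a, ha⟩ : ∃ a : ℕ, (π.pp k x y π.l).1 = a :=
        ⟨(π.pp k x y π.l).1.toNat, by rw [e1]; omega⟩
      obtain ⟨b, hb⟩ : ∃ b : ℕ, (π.pp k x y π.l).2 = b :=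
        ⟨(π.pp k x y π.l).2.toNat, by rw [e2]; omega⟩
      have hl' : InL π.D ((a : ℤ), (b : ℤ)) := by
        rw [← ha, ← hb]
        exact hl
      have hadj := hg.adj (.te k x y) h
      have e3 : (π.pp k x y π.l).1.toNat = a := by rw [ha]; simp
      have e4 : (π.pp k x y π.l).2.toNat = b := by rw [hb]; simp
      simp only [GE.ends, e3, e4] at hadj
      obtain ⟨i, j, u, r1, r2, r3⟩ := around hn (x := a) (y := b) (by omega) (by omega)
        (by omega) (Or.inl hl') hadj.symm (hT _ le_rfl)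
      obtain ⟨u', hu'⟩ := conv _ i j (by omega) (by omega) (by omega) r1.1
      exact ⟨i, j, u', hu', by rw [← e1, ha]; exact r2, by rw [← e2, hb]; exact r3⟩)
  exact key

theorem tcell_fst {k x y t : ℕ} : (tcell π k x y t).1 = colT π.R (π.fx k) x t := rfl

theorem tcell_snd {k x y t : ℕ} (ht : 1 ≤ t) :
    (tcell π k x y t).2 = rowT π.R (π.fy k) y t := by
  unfold tcell rowT
  rw [if_neg (by omega)]
  unfold Par.qq Par.pp
  ring

/-- **The cell of a vertex of a thread.** -/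
theorem Net.thread (hn : Net H X Y E F κ π) (hg : HasGrid H κ π) {k x y t : ℕ}
    (h : π.St k x y) (h1 : 1 ≤ t) (h2 : t ≤ 2 * π.l) :
    InC X Y κ (tcell π k x y t).1 (tcell π k x y t).2 (κ (.v (.T k x y t))) := by
  obtain ⟨u, hu⟩ := (hn.thread_core hg h).2.2 t h1 h2
  rw [tcell_fst, tcell_snd h1]
  exact hu.2.1

/-- the cells of the threads are inside the region -/
theorem Net.tcell_bds (hn : Net H X Y E F κ π) (hg : HasGrid H κ π) {k x y t : ℕ}
    (h : π.St k x y) (h1 : 1 ≤ t) (h2 : t ≤ 2 * π.l) :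
    1 ≤ (tcell π k x y t).1 ∧ 1 ≤ (tcell π k x y t).2 ∧
      (tcell π k x y t).1 + (tcell π k x y t).2 + π.R + 5 ≤ π.M := by
  obtain ⟨u, hu⟩ := (hn.thread_core hg h).2.2 t h1 h2
  rw [tcell_fst, tcell_snd h1]
  exact hu.1

/-- the first vertex of a thread -/
theorem Net.thread0 (hn : Net H X Y E F κ π) (hg : HasGrid H κ π) {k x y : ℕ}
    (h : π.St k x y) : InC X Y κ x y (κ (.v (.T k x y 0))) ∧ LR X Y κ x y (κ (.v (.T k x y 0))) := by
  obtain ⟨⟨a1, a2, a3⟩, a4, a5⟩ := (hn.thread_core hg h).1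
  have hc : InC X Y κ x y (κ (.v (.T k x y 0))) := a4
  refine ⟨hc, ?_⟩
  rcases side hn (by omega) (by omega) (by omega) h.2.1 hc with h1 | h1
  · exact absurd ((a5 h.2.1).2 h1) (by decide)
  · exact h1

/-- the last vertex of a thread -/
theorem Net.thread1 (hn : Net H X Y E F κ π) (hg : HasGrid H κ π) {k x y : ℕ}
    (h : π.St k x y) :
    InC X Y κ (π.pp k x y π.l).1 (π.pp k x y π.l).2 (κ (.v (.T k x y (2 * π.l + 1)))) ∧
      UL X Y κ (π.pp k x y π.l).1 (π.pp k x y π.l).2 (κ (.v (.T k x y (2 * π.l + 1)))) := by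
  obtain ⟨⟨a1, a2, a3⟩, a4, a5⟩ := (hn.thread_core hg h).2.1
  exact ⟨a4, (a5 (h.pl π.l)).1 rfl⟩

/-- an edge between two different rows is vertical -/
theorem Net.eqX (hn : Net H X Y E F κ π) {i j j' : ℤ} {p p' : V} (hi : 0 ≤ i) (hj : 0 ≤ j)
    (hM : i + j + π.R + 5 ≤ π.M) (hj' : 0 ≤ j') (hM' : j' + 4 ≤ π.M) (hne : j ≠ j')
    (hp : InC X Y κ i j p) (hp' : gY Y κ j' < Y p' ∧ Y p' < gY Y κ (j' + 1)) (hadj : H.Adj p p')
    (hz : p' ∉ ZN κ π) : X p' = X p := by
  have key : ¬ (gY Y κ j < Y p' ∧ Y p' < gY Y κ (j + 1)) := by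
    rintro ⟨h1, h2⟩
    rcases lt_or_gt_of_ne hne with h | h
    · have := gy_le hn (i := j + 1) (j := j') (by omega) (by omega) (by omega)
      linarith
    · have := gy_le hn (i := j' + 1) (j := j) (by omega) (by omega) (by omega)
      linarith
  rcases hn.exit hi hj hM hp hadj with h | h | h | h
  · exact absurd ⟨h.2.2.1, h.2.2.2⟩ key
  · exact absurd h.1 hz
  · exact h
  · exact absurd ⟨by rw [h]; exact hp.2.2.1, by rw [h]; exact hp.2.2.2⟩ key

/-- an edge between two different columns is horizontal -/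
theorem Net.eqY (hn : Net H X Y E F κ π) {i j i' : ℤ} {p p' : V} (hi : 0 ≤ i) (hj : 0 ≤ j)
    (hM : i + j + π.R + 5 ≤ π.M) (hi' : 0 ≤ i') (hM' : i' + 4 ≤ π.M) (hne : i ≠ i')
    (hp : InC X Y κ i j p) (hp' : gX X κ i' < X p' ∧ X p' < gX X κ (i' + 1)) (hadj : H.Adj p p')
    (hz : p' ∉ ZN κ π) : Y p' = Y p := by
  have key : ¬ (gX X κ i < X p' ∧ X p' < gX X κ (i + 1)) := by
    rintro ⟨h1, h2⟩
    rcases lt_or_gt_of_ne hne with h | h
    · have := gx_le hn (i := i + 1) (j := i') (by omega) (by omega) (by omega)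
      linarith
    · have := gx_le hn (i := i' + 1) (j := i) (by omega) (by omega) (by omega)
      linarith
  rcases hn.exit hi hj hM hp hadj with h | h | h | h
  · exact absurd ⟨h.1, h.2.1⟩ key
  · exact absurd h.1 hz
  · exact absurd ⟨by rw [h]; exact hp.1, by rw [h]; exact hp.2.1⟩ key
  · exact h

/-- the row of the vertex number `t` of a thread -/
def trow (π : Par) (k : ℕ) (y : ℤ) (t : ℕ) : ℤ :=
  if t = 0 then y else if t = 2 * π.l + 1 then y - π.R - π.l * ((π.R : ℤ) - 2 * π.fy k)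
  else rowT π.R (π.fy k) y t

/-- all the vertices of a thread -/
theorem Net.all (hn : Net H X Y E F κ π) (hg : HasGrid H κ π) {k x y t : ℕ}
    (h : π.St k x y) (h2 : t ≤ 2 * π.l + 1) :
    ∃ u, RG X Y κ π (κ (.v (.T k x y t))) (colT π.R (π.fx k) x t) (trow π k y t) u := by
  obtain ⟨c1, c2, c3⟩ := hn.thread_core hg h
  unfold trow
  by_cases h0 : t = 0
  · subst h0
    refine ⟨false, ?_⟩
    have e : colT (π.R : ℤ) (π.fx k) x 0 = x := by
      unfold colT
      simp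
    rw [if_pos rfl, e]
    exact c1
  · rw [if_neg h0]
    by_cases h1 : t = 2 * π.l + 1
    · subst h1
      refine ⟨true, ?_⟩
      have e : colT (π.R : ℤ) (π.fx k) x (2 * π.l + 1) = (π.pp k x y π.l).1 := by
        unfold colT Par.pp
        rw [show (2 * π.l + 1) / 2 = π.l by omega]
      rw [if_pos rfl, e]
      exact c2
    · rw [if_neg h1]
      exact c3 t (by omega) (by omega)

/-- **The vertical links.** -/
theorem Net.linkX (hn : Net H X Y E F κ π) (hg : HasGrid H κ π) {k x y a : ℕ}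
    (h : π.St k x y) (ha : a ≤ π.l) :
    X (κ (.v (.T k x y (2 * a)))) = X (κ (.v (.T k x y (2 * a + 1)))) := by
  obtain ⟨u, ⟨a1, a2, a3⟩, a4, -⟩ := hn.all hg (t := 2 * a) h (by omega)
  obtain ⟨u', ⟨c1, c2, c3⟩, c4, -⟩ := hn.all hg (t := 2 * a + 1) h (by omega)
  obtain ⟨b1, b2, b3, b4⟩ := h.bds
  have hne : trow π k y (2 * a) ≠ trow π k y (2 * a + 1) := by
    unfold trow
    rw [if_neg (show 2 * a + 1 ≠ 0 by omega), if_neg (show 2 * a ≠ 2 * π.l + 1 by omega)]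
    rcases Nat.eq_zero_or_pos a with rfl | ha0
    · rw [if_pos (by omega)]
      by_cases hl : π.l = 0
      · rw [if_pos (by omega), hl]
        push_cast
        intro h1
        linarith
      · rw [if_neg (by omega)]
        unfold rowT
        norm_num
        intro h1
        linarith
    · rw [if_neg (by omega)]
      obtain ⟨b, rfl⟩ : ∃ b, a = b + 1 := ⟨a - 1, by omega⟩
      by_cases hl : b + 1 = π.l
      · rw [if_pos (by omega), ← hl]
        unfold rowT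
        rw [show (2 * (b + 1) - 1) / 2 = b by omega]
        push_cast
        intro h1
        nlinarith
      · rw [if_neg (by omega)]
        unfold rowT
        rw [show (2 * (b + 1) - 1) / 2 = b by omega, show (2 * (b + 1) + 1 - 1) / 2 = b + 1 by omega]
        push_cast
        intro h1
        nlinarith
  have hz := T_notMem hg (show GN.ok π (.T k x y (2 * a + 1)) from ⟨h, by omega⟩)
  have hadj : H.Adj (κ (.v (.T k x y (2 * a)))) (κ (.v (.T k x y (2 * a + 1)))) :=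
    hg.adj (.tt k x y (2 * a)) ⟨h, by omega⟩
  exact (hn.eqX (by linarith) (by linarith) a3 (by linarith) (by linarith) hne a4
    ⟨c4.2.2.1, c4.2.2.2⟩ hadj hz).symm

/-- **The horizontal links.** -/
theorem Net.linkY (hn : Net H X Y E F κ π) (hg : HasGrid H κ π) {k x y a : ℕ}
    (h : π.St k x y) (ha : a < π.l) :
    Y (κ (.v (.T k x y (2 * a + 1)))) = Y (κ (.v (.T k x y (2 * a + 2)))) := by
  obtain ⟨u, ⟨a1, a2, a3⟩, a4, -⟩ := hn.all hg (t := 2 * a + 1) h (by omega)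
  obtain ⟨u', ⟨c1, c2, c3⟩, c4, -⟩ := hn.all hg (t := 2 * a + 2) h (by omega)
  obtain ⟨b1, b2, b3, b4⟩ := h.bds
  have hne : colT π.R (π.fx k) x (2 * a + 1) ≠ colT π.R (π.fx k) x (2 * a + 2) := by
    unfold colT
    rw [show (2 * a + 1) / 2 = a by omega, show (2 * a + 2) / 2 = a + 1 by omega]
    push_cast
    intro h1
    nlinarith
  have hz := T_notMem hg (show GN.ok π (.T k x y (2 * a + 2)) from ⟨h, by omega⟩)
  have hadj : H.Adj (κ (.v (.T k x y (2 * a + 1)))) (κ (.v (.T k x y (2 * a + 2)))) :=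
    hg.adj (.tt k x y (2 * a + 1)) ⟨h, by omega⟩
  exact (hn.eqY (by linarith) (by linarith) a3 (by linarith) (by linarith) hne a4
    ⟨c4.1, c4.2.1⟩ hadj hz).symm

/-- the cell of a vertex of a thread is not an obstacle -/
theorem Par.St.notL {k x y t : ℕ} (h : π.St k x y) (h1 : 1 ≤ t) :
    ¬ InL π.D (tcell π k x y t) := by
  obtain ⟨b1, b2, b3, b4⟩ := h.bds
  have hf := h.facts
  intro hL
  have e1 : InL π.D (colT π.R (π.fx k) x t, rowT π.R (π.fy k) y t) := by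
    rw [← tcell_fst (y := y), ← tcell_snd h1]
    exact hL
  have e2 := Pool.Agent.Helper49.DG3.dvd_baseV (R := (π.R : ℤ)) (c := (Nat.fib (2 * π.D) : ℤ))
    (x := x) (y := y) hf.tl h.2.1 t
  have e3 := Pool.Agent.Helper49.DG3.dvd_col hf.cc e1 e2
  rcases Nat.mod_two_eq_zero_or_one t with ht | ht
  · rw [Pool.Agent.Helper49.DG3.rowT_even h1 ht] at e3
    have e4 : (π.R : ℤ) ∣ π.R - π.fy k := by
      rwa [show Pool.Agent.Helper49.DG3.baseV (π.R : ℤ) (π.fy k) y t + (π.R - π.fy k) -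
        Pool.Agent.Helper49.DG3.baseV (π.R : ℤ) (π.fy k) y t = π.R - π.fy k by ring] at e3
    have := Pool.Agent.Helper49.DG3.eq_of_dvd_lt e4 (by linarith) (by linarith)
    linarith
  · rw [Pool.Agent.Helper49.DG3.rowT_odd ht] at e3
    have e4 : (π.R : ℤ) ∣ π.fy k := by
      rwa [show Pool.Agent.Helper49.DG3.baseV (π.R : ℤ) (π.fy k) y t + π.fy k -
        Pool.Agent.Helper49.DG3.baseV (π.R : ℤ) (π.fy k) y t = π.fy k by ring] at e3
    have := Pool.Agent.Helper49.DG3.eq_of_dvd_lt e4 (by linarith) (by linarith)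
    linarith

end Pool.Agent.Helper58.DG3
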